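import Pool.Agent.Q38.IF.Main

set_option autoImplicit false

/-!
# An inductively free arrangement with `J^(3) ⊄ J^2`
-/

namespace Pool.Agent.Results.MP_761c50_ag.ContainmentFails

open Pool.Agent.Q38.IndFree

/-- **The containment `J^(2r-1) ⊆ J^r` fails for `r = 2` for an inductively free arrangement of
planes in `ℂ^3`.** -/
theorem result : ∃ A : Finset (Submodule ℂ (Fin 3 → ℂ)), (∀ H ∈ A, IsHyperplane H) ∧
    InductivelyFree 3 A ∧ ¬ symbPow A (2 * 2 - 1) ≤ singIdeal A ^ 2 :=
  ⟨_, Arr_hyp', Arr_indFree, Arr_not_le⟩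

end Pool.Agent.Results.MP_761c50_ag.ContainmentFails
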